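import Mathlib

set_option autoImplicit false

open Set Topology Function

namespace Pool.Agent.Lib.MP_c6d701_gt

/-- A sequence built by recursion on its initial segments. -/
theorem exists_rec (Φ : ℕ → (ℕ → ℕ) → ℕ) :
    ∃ (x : ℕ → ℕ) (X : ℕ → ℕ → ℕ), X 0 = (fun _ => 0) ∧
      (∀ l, X (l + 1) = update (X l) l (Φ l (X l))) ∧
      (∀ l, ∀ i < l, X l i = x i) ∧ ∀ l, x l = Φ l (X l) := by
  let X : ℕ → ℕ → ℕ := fun n => Nat.rec (fun _ => 0) (fun l Y => update Y l (Φ l Y)) n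
  have hX0 : X 0 = fun _ => 0 := rfl
  have hXs : ∀ l, X (l + 1) = update (X l) l (Φ l (X l)) := fun l => rfl
  refine ⟨fun l => X (l + 1) l, X, hX0, hXs, ?_, ?_⟩
  · intro l
    induction l with
    | zero => intro i hi; omega
    | succ l ih =>
      intro i hi
      rcases Nat.lt_succ_iff_lt_or_eq.mp hi with h | h
      · rw [hXs l, update_of_ne (by omega)]
        exact ih i h
      · subst h; rfl
  · intro l
    simp [hXs]

/-- Sets of sequences whose values are bounded in terms of the preceding initial segment. -/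
def Bdd (B : Set (ℕ → ℕ)) : Prop :=
  ∃ (n0 : ℕ) (K : ℕ → (ℕ → ℕ) → ℕ), (∀ l x y, (∀ i < l, x i = y i) → K l x = K l y) ∧
    ∀ x ∈ B, ∀ l, n0 ≤ l → x l < K l x

/-- Countable unions of such sets. -/
def SB (A : Set (ℕ → ℕ)) : Prop :=
  ∃ S : ℕ → Set (ℕ → ℕ), (∀ m, Bdd (S m)) ∧ A ⊆ ⋃ m, S m

theorem SB.mono {A B : Set (ℕ → ℕ)} (h : SB B) (hAB : A ⊆ B) : SB A := by
  obtain ⟨S, hS, hB⟩ := h
  exact ⟨S, hS, hAB.trans hB⟩

theorem Bdd.empty : Bdd ∅ := ⟨0, fun _ _ => 0, fun _ _ _ _ => rfl, fun x hx => absurd hx (by simp)⟩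

theorem SB_of_countable {ι : Type*} [Countable ι] (A : Set (ℕ → ℕ)) (S : ι → Set (ℕ → ℕ))
    (hS : ∀ i, Bdd (S i)) (hA : A ⊆ ⋃ i, S i) : SB A := by
  rcases isEmpty_or_nonempty ι with hι | hι
  · refine ⟨fun _ => ∅, fun _ => Bdd.empty, ?_⟩
    intro x hx
    have := hA hx
    simp at this
  · obtain ⟨g, hg⟩ := exists_surjective_nat ι
    refine ⟨fun n => S (g n), fun n => hS _, ?_⟩
    intro x hx
    obtain ⟨i, hi⟩ := mem_iUnion.mp (hA hx)
    obtain ⟨n, rfl⟩ := hg i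
    exact mem_iUnion.mpr ⟨n, hi⟩

theorem SB_iUnion {ι : Type*} [Countable ι] (A : ι → Set (ℕ → ℕ)) (hA : ∀ i, SB (A i)) :
    SB (⋃ i, A i) := by
  choose S hS hAS using hA
  refine SB_of_countable (ι := ι × ℕ) _ (fun p => S p.1 p.2) (fun p => hS _ _) ?_
  intro x hx
  obtain ⟨i, hi⟩ := mem_iUnion.mp hx
  obtain ⟨n, hn⟩ := mem_iUnion.mp (hAS i hi)
  exact mem_iUnion.mpr ⟨(i, n), hn⟩

theorem not_SB_univ : ¬ SB (univ : Set (ℕ → ℕ)) := by
  rintro ⟨S, hS, hcov⟩
  choose n0 K hK hlt using hS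
  obtain ⟨x, X, -, -, hpre, hx⟩ :=
    exists_rec (fun l y => ∑ m ∈ Finset.range (l + 1), K m l y)
  obtain ⟨m, hm⟩ := mem_iUnion.mp (hcov (mem_univ x))
  have h1 := hlt m x hm (max m (n0 m)) (le_max_right _ _)
  have h2 := hx (max m (n0 m))
  have h3 : K m (max m (n0 m)) (X (max m (n0 m))) = K m (max m (n0 m)) x :=
    hK m _ _ _ (fun i hi => hpre _ i hi)
  have h4 : K m (max m (n0 m)) (X (max m (n0 m))) ≤
      ∑ m' ∈ Finset.range (max m (n0 m) + 1), K m' (max m (n0 m)) (X (max m (n0 m))) := by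
    refine Finset.single_le_sum (f := fun m' => K m' (max m (n0 m)) (X (max m (n0 m))))
      (fun _ _ => Nat.zero_le _) ?_
    simp only [Finset.mem_range]
    omega
  omega

/-- Gluing continuous functions along the value of a coordinate. -/
theorem continuous_glue (l : ℕ) (φ : ℕ → (ℕ → ℕ) → ℕ) (hφ : ∀ j, Continuous (φ j)) :
    Continuous (fun x : ℕ → ℕ => φ (x l) x) := by
  rw [continuous_iff_continuousAt]
  intro x0
  have h1 : ∀ᶠ x : ℕ → ℕ in 𝓝 x0, x l = x0 l := by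
    have hc : ContinuousAt (fun x : ℕ → ℕ => x l) x0 := (continuous_apply l).continuousAt
    have h0 : ∀ᶠ j in 𝓝 (x0 l), j = x0 l := by simp
    exact hc.eventually h0
  have h2 : ContinuousAt (φ (x0 l)) x0 := (hφ _).continuousAt
  refine h2.congr ?_
  filter_upwards [h1] with x hx
  rw [hx]

section Step4

variable (Dn : ℕ → (ℕ → ℕ) → Set (ℕ → ℕ))

/-- The goodness predicate. -/
def Good (t : ℕ → ℕ) (k n : ℕ) (σ : ℕ → ℕ) : Prop :=
  ∀ ι : (ℕ → ℕ) → ℕ, Continuous ι → ∃ α : ℕ → ℕ, (∀ i < n, α i = σ i) ∧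
    ∀ m, ∀ x ∈ Dn (m + 1) α, (∀ i < k, x i = t i) → ι x ≤ α m

variable {Dn}

theorem Good.congr {t t' : ℕ → ℕ} {k n : ℕ} {σ σ' : ℕ → ℕ} (h : Good Dn t k n σ)
    (ht : ∀ i < k, t i = t' i) (hσ : ∀ i < n, σ i = σ' i) : Good Dn t' k n σ' := by
  intro ι hι
  obtain ⟨α, hα, hm⟩ := h ι hι
  refine ⟨α, fun i hi => (hα i hi).trans (hσ i hi), fun m x hx hxt => ?_⟩
  exact hm m x hx (fun i hi => (hxt i hi).trans (ht i hi).symm)

theorem lemmaA {t : ℕ → ℕ} {k n : ℕ} {σ : ℕ → ℕ} (h : Good Dn t k n σ) (u : ℕ → ℕ)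
    (hu : ∀ i < k, u i = t i) (l : ℕ) (hl : k ≤ l) :
    ∃ K0, ∀ j, K0 ≤ j → ∃ i, Good Dn (update u l j) (l + 1) (n + 1) (update σ n i) := by
  classical
  by_contra hcon
  push Not at hcon
  -- bad functions
  have hbad : ∀ j i, ∃ ι : (ℕ → ℕ) → ℕ, Continuous ι ∧
      ((∀ i', ¬ Good Dn (update u l j) (l + 1) (n + 1) (update σ n i')) →
        ∀ α : ℕ → ℕ, (∀ q < n + 1, α q = update σ n i q) →
          ∃ m, ∃ x ∈ Dn (m + 1) α, (∀ q < l + 1, x q = update u l j q) ∧ α m < ι x) := by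
    intro j i
    by_cases hj : ∀ i', ¬ Good Dn (update u l j) (l + 1) (n + 1) (update σ n i')
    · have h1 := hj i
      unfold Good at h1
      push Not at h1
      obtain ⟨ι, hι, h2⟩ := h1
      exact ⟨ι, hι, fun _ => h2⟩
    · exact ⟨fun _ => 0, continuous_const, fun h' => absurd h' hj⟩
  choose ι' hι' hbad' using hbad
  have hcont : Continuous (fun x : ℕ → ℕ => ∑ i ∈ Finset.range (x l + 1), ι' (x l) i x) :=
    continuous_glue l (fun j x => ∑ i ∈ Finset.range (j + 1), ι' j i x)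
      (fun j => continuous_finsetSum _ (fun i _ => hι' j i))
  obtain ⟨α, hα, hm⟩ := h _ hcont
  obtain ⟨j, hj, hJ⟩ := hcon (α n)
  obtain ⟨m, x, hx, hxu, hlt⟩ := hbad' j (α n) hJ α (by
    intro q hq
    rcases Nat.lt_succ_iff_lt_or_eq.mp hq with h' | h'
    · rw [update_of_ne (by omega)]; exact hα q h'
    · subst h'; simp)
  have h1 := hm m x hx (by
    intro q hq
    rw [hxu q (by omega), update_of_ne (by omega)]
    exact hu q hq)
  have h2 : x l = j := by rw [hxu l (by omega)]; simp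
  have h3 : ι' j (α n) x ≤ ∑ i ∈ Finset.range (j + 1), ι' j i x :=
    Finset.single_le_sum (f := fun i => ι' j i x) (fun _ _ => Nat.zero_le _)
      (by simp only [Finset.mem_range]; omega)
  simp only [h2] at h1
  omega

/-- Finite sequences, extended by zero. -/
def ext (L : List ℕ) : ℕ → ℕ := fun i => L.getD i 0

theorem exists_ext (σ : ℕ → ℕ) (n : ℕ) : ∃ L : List ℕ, ∀ i < n, σ i = ext L i := by
  refine ⟨(List.range n).map σ, fun i hi => ?_⟩
  simp [ext, List.getD, hi]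

theorem step4 (D : Set (ℕ → ℕ))
    (hcover : ∀ α, ∀ x ∈ D, ∃ m, x ∈ Dn m α)
    (hmono : ∀ m (α β : ℕ → ℕ), (∀ i, α i ≤ β i) → Dn m β ⊆ Dn m α)
    (hinc : ∀ m (α : ℕ → ℕ), Dn m α ⊆ Dn (m + 1) α)
    (hι : ∀ ι : (ℕ → ℕ) → ℕ, Continuous ι → ∃ α : ℕ → ℕ, ∀ m, ∀ x ∈ Dn (m + 1) α, ι x ≤ α m) :
    SB D := by
  classical
  have hgood0 : ∀ t σ, Good Dn t 0 0 σ := by
    intro t σ ι h
    obtain ⟨α, hα⟩ := hι ι h
    exact ⟨α, fun i hi => absurd hi (by omega), fun m x hx _ => hα m x hx⟩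
  -- terminal indices
  have hterm : ∀ x ∈ D, ∃ n σ k, Good Dn x k n σ ∧
      ∀ i k', ¬ Good Dn x k' (n + 1) (update σ n i) := by
    intro x hx
    by_contra hcon
    push Not at hcon
    let Q : ℕ → (ℕ → ℕ) → Prop := fun n σ => ∃ k, Good Dn x k n σ
    have hQs : ∀ n σ, Q n σ → ∃ i, Q (n + 1) (update σ n i) := by
      rintro n σ ⟨k, hk⟩
      obtain ⟨i, k', h'⟩ := hcon n σ k hk
      exact ⟨i, k', h'⟩
    have hch : ∀ n σ, ∃ i, Q n σ → Q (n + 1) (update σ n i) := by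
      intro n σ
      by_cases h : Q n σ
      · obtain ⟨i, hi⟩ := hQs n σ h
        exact ⟨i, fun _ => hi⟩
      · exact ⟨0, fun h' => absurd h' h⟩
    choose Φ hΦ using hch
    obtain ⟨α, X, hX0, hXs, hpre, -⟩ := exists_rec Φ
    have hQX : ∀ n, Q n (X n) := by
      intro n
      induction n with
      | zero => exact ⟨0, hgood0 _ _⟩
      | succ n ih =>
        rw [hXs n]
        exact hΦ n _ ih
    have hQα : ∀ n, ∃ k, Good Dn x k n α := by
      intro n
      obtain ⟨k, hk⟩ := hQX n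
      exact ⟨k, hk.congr (fun _ _ => rfl) (hpre n)⟩
    have hA : ∀ n, ∃ A : ℕ → ℕ, (∀ i < n, A i = α i) ∧ ∀ m, x ∈ Dn (m + 1) A → n ≤ A m := by
      intro n
      obtain ⟨k, hk⟩ := hQα n
      obtain ⟨A, hA1, hA2⟩ := hk (fun _ => n) continuous_const
      exact ⟨A, hA1, fun m hm => hA2 m x hm (fun _ _ => rfl)⟩
    choose A hA1 hA2 using hA
    let β : ℕ → ℕ := fun j => α j + ∑ n ∈ Finset.range (j + 1), A n j
    have hβ : ∀ n j, A n j ≤ β j := by
      intro n j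
      by_cases h : n ≤ j
      · have : A n j ≤ ∑ n ∈ Finset.range (j + 1), A n j :=
          Finset.single_le_sum (f := fun n => A n j) (fun _ _ => Nat.zero_le _)
            (by simp only [Finset.mem_range]; omega)
        simp only [β]; omega
      · rw [hA1 n j (by omega)]
        simp only [β]; omega
    obtain ⟨m, hm⟩ := hcover β x hx
    have h1 := hmono _ _ _ (hβ (β m + 1)) (hinc _ _ hm)
    have h2 := hA2 (β m + 1) m h1
    have h3 := hβ (β m + 1) m
    omega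
  -- the countable family
  let S : (ℕ × ℕ) × (List ℕ × List ℕ) → Set (ℕ → ℕ) := fun p =>
    {x | (∀ i < p.1.2, x i = ext p.2.2 i) ∧ Good Dn (ext p.2.2) p.1.2 p.1.1 (ext p.2.1) ∧
      ∀ i k', ¬ Good Dn x k' (p.1.1 + 1) (update (ext p.2.1) p.1.1 i)}
  refine SB_of_countable D S ?_ ?_
  · rintro ⟨⟨n, k⟩, ⟨Lσ, Lt⟩⟩
    refine ⟨k, fun l x => sInf {K0 | ∀ j, K0 ≤ j →
      ∃ i, Good Dn (update x l j) (l + 1) (n + 1) (update (ext Lσ) n i)}, ?_, ?_⟩
    · intro l x y hxy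
      have key : ∀ x y : ℕ → ℕ, (∀ i < l, x i = y i) → ∀ j i,
          Good Dn (update x l j) (l + 1) (n + 1) (update (ext Lσ) n i) →
          Good Dn (update y l j) (l + 1) (n + 1) (update (ext Lσ) n i) := by
        intro x y hxy j i h
        refine h.congr (fun q hq => ?_) (fun _ _ => rfl)
        by_cases hql : q = l
        · subst hql; simp
        · rw [update_of_ne hql, update_of_ne hql]
          exact hxy q (by omega)
      have hset : {K0 | ∀ j, K0 ≤ j →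
          ∃ i, Good Dn (update x l j) (l + 1) (n + 1) (update (ext Lσ) n i)} =
          {K0 | ∀ j, K0 ≤ j →
          ∃ i, Good Dn (update y l j) (l + 1) (n + 1) (update (ext Lσ) n i)} := by
        apply Subset.antisymm
        · intro K0 h j hj
          obtain ⟨i, hi⟩ := h j hj
          exact ⟨i, key x y hxy j i hi⟩
        · intro K0 h j hj
          obtain ⟨i, hi⟩ := h j hj
          exact ⟨i, key y x (fun i hi => (hxy i hi).symm) j i hi⟩
      exact congrArg sInf hset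
    · rintro x ⟨hx1, hx2, hx3⟩ l hl
      by_contra hcon
      push Not at hcon
      have hne : {K0 | ∀ j, K0 ≤ j →
          ∃ i, Good Dn (update x l j) (l + 1) (n + 1) (update (ext Lσ) n i)}.Nonempty :=
        lemmaA hx2 x hx1 l hl
      have hmem := Nat.sInf_mem hne
      obtain ⟨i, hi⟩ := hmem (x l) hcon
      rw [update_eq_self] at hi
      exact hx3 i (l + 1) hi
  · intro x hx
    obtain ⟨n, σ, k, h1, h2⟩ := hterm x hx
    obtain ⟨Lσ, hLσ⟩ := exists_ext σ n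
    obtain ⟨Lt, hLt⟩ := exists_ext x k
    refine mem_iUnion.mpr ⟨((n, k), (Lσ, Lt)), hLt, h1.congr hLt hLσ, fun i k' h => ?_⟩
    refine h2 i k' (h.congr (fun _ _ => rfl) (fun q hq => ?_))
    change q < n + 1 at hq
    rcases Nat.lt_succ_iff_lt_or_eq.mp hq with h' | h'
    · change update (ext Lσ) n i q = update σ n i q
      rw [update_of_ne (by omega), update_of_ne (by omega)]
      exact (hLσ q h').symm
    · subst h'; simp

end Step4

end Pool.Agent.Lib.MP_c6d701_gt
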