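import Pool.Agent.Lib.MP_c6d701_gt.Main

/-!
# General form: `C_p(C_p(X))` for every space `X` with an unbounded continuous function

The argument of `Main.lean` with the irrationals replaced by a space `X` with a sequence of points
`pt` at which continuous functions can take arbitrary values.
-/

set_option autoImplicit false

open Set Topology Function

universe u v

namespace Pool.Agent.Lib.MP_c6d701_gt.Gen

variable {X : Type u} [TopologicalSpace X]

/-- continuous functions, pointwise topology -/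
abbrev CC (X : Type u) [TopologicalSpace X] : Type u := {f : X → ℝ // Continuous f}

/-- Evaluation at the sample points. -/
def rho (pt : ℕ → X) (g : CC X) : ℕ → ℝ := fun n => g.1 (pt n)

theorem continuous_rho (pt : ℕ → X) : Continuous (rho pt) :=
  continuous_pi fun n => (continuous_apply (pt n)).comp continuous_subtype_val

/-- Composition with `rho`. -/
def JJ (pt : ℕ → X) (w : C(ℕ → ℝ, ℝ)) : CC (CC X) :=
  ⟨fun g => w (rho pt g), w.continuous.comp (continuous_rho pt)⟩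

section Star

variable {Y : Type v} [TopologicalSpace Y] [RegularSpace Y] (pt : ℕ → X) (f : (ℕ → ℕ) → Y)
  (e : CC (CC X) → Y)

/-- The scheme of sets of functions. -/
def NN (n : ℕ) (s : ℕ → ℕ) : Set C(ℕ → ℝ, ℝ) :=
  {u | ∃ β : ℕ → ℕ, (∀ i < n, β i = s i) ∧ f β = e (JJ pt u)}

omit [TopologicalSpace Y] [RegularSpace Y] in
theorem NN_congr {n : ℕ} {s s' : ℕ → ℕ} (h : ∀ i < n, s i = s' i) : NN pt f e n s ⊆ NN pt f e n s' := by
  rintro u ⟨β, hβ, h'⟩
  exact ⟨β, fun i hi => (hβ i hi).trans (h i hi), h'⟩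

omit [TopologicalSpace Y] [RegularSpace Y] in
theorem NN_anti {n m : ℕ} (hnm : n ≤ m) (s : ℕ → ℕ) : NN pt f e m s ⊆ NN pt f e n s := by
  rintro u ⟨β, hβ, h'⟩
  exact ⟨β, fun i hi => hβ i (by omega), h'⟩

theorem star (sec : (ℕ → ℝ) → CC X) (rho_sec : ∀ a, rho pt (sec a) = a) (hf : Continuous f) (he : IsEmbedding e) (x : ℕ → ℝ) :
    ∃ F : Finset (ℕ → ℝ), ∀ α : ℕ → ℕ,
      (∀ n, ∃ u ∈ NN pt f e n α, ∀ y ∈ F, u y = 0) →
      ∃ n, ∀ u ∈ NN pt f e n α, |u x| < 1 / 4 := by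
  classical
  let g0 : CC (CC X) := JJ pt 0
  have hW0 : IsOpen {g : CC (CC X) | |g.1 (sec x)| < 1 / 4} :=
    isOpen_lt (((continuous_apply (sec x)).comp continuous_subtype_val).abs) continuous_const
  obtain ⟨W, hWo, hW⟩ := he.isInducing.isOpen_iff.mp hW0
  have hg0W : e g0 ∈ W := by
    have : g0 ∈ e ⁻¹' W := by
      rw [hW]
      simp [g0, JJ]
    exact this
  obtain ⟨V, ⟨hVo, hV0⟩, hVW⟩ : ∃ V : Set Y, (IsOpen V ∧ e g0 ∈ V) ∧ closure V ⊆ W := by
    obtain ⟨C, hC, hCc, hCW⟩ := exists_mem_nhds_isClosed_subset (hWo.mem_nhds hg0W)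
    refine ⟨interior C, ⟨isOpen_interior, mem_interior_iff_mem_nhds.mpr hC⟩, ?_⟩
    exact (closure_mono interior_subset).trans (hCc.closure_eq.subset.trans hCW)
  have hVpre : IsOpen (e ⁻¹' V) := hVo.preimage he.continuous
  obtain ⟨O, hOo, hO⟩ := isOpen_induced_iff.mp hVpre
  have hg0O : g0.1 ∈ O := by
    have : g0 ∈ Subtype.val ⁻¹' O := by rw [hO]; exact hV0
    exact this
  rw [isOpen_pi_iff] at hOo
  obtain ⟨J, w, hJ, hJO⟩ := hOo g0.1 hg0O
  refine ⟨J.image (rho pt), fun α hα => ?_⟩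
  have hcl : f α ∈ closure V := by
    rw [mem_closure_iff]
    intro O' hO' hαO'
    obtain ⟨n, hn⟩ := exists_cyl (hO'.preimage hf) hαO'
    obtain ⟨u, ⟨β, hβ1, hβ2⟩, hu⟩ := hα n
    refine ⟨f β, hn β hβ1, ?_⟩
    rw [hβ2]
    have h1 : (JJ pt u).1 ∈ O := by
      apply hJO
      intro p hp
      have h2 : (JJ pt u).1 p = g0.1 p := by
        simp only [JJ, g0]
        rw [hu (rho pt p) (Finset.mem_image_of_mem _ hp)]
        simp
      rw [h2]
      exact (hJ p hp).2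
    have h3 : JJ pt u ∈ e ⁻¹' V := by rw [← hO]; exact h1
    exact h3
  obtain ⟨n, hn⟩ := exists_cyl (hWo.preimage hf) (hVW hcl)
  refine ⟨n, ?_⟩
  rintro u ⟨β, hβ1, hβ2⟩
  have h1 : e (JJ pt u) ∈ W := by rw [← hβ2]; exact hn β hβ1
  have h2 : JJ pt u ∈ {g : CC (CC X) | |g.1 (sec x)| < 1 / 4} := by rw [← hW]; exact h1
  have h3 : |u (rho pt (sec x))| < 1 / 4 := h2
  rwa [rho_sec] at h3

end Star

theorem no_embedding {Y : Type v} [TopologicalSpace Y] [RegularSpace Y] (pt : ℕ → X)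
    (sec : (ℕ → ℝ) → CC X) (rho_sec : ∀ a, rho pt (sec a) = a) (f : (ℕ → ℕ) → Y)
    (hf : Continuous f) (hsurj : Surjective f) (e : CC (CC X) → Y) (he : IsEmbedding e) : False := by
  classical
  have hstar := fun x : ℕ → ℕ => star pt f e sec rho_sec hf he (cc x)
  choose F hF using hstar
  have hsep := fun x : ℕ → ℕ => exists_sep_finset x (F x)
  choose kx mx hkm using hsep
  -- a class which is not small
  let A : ℕ × ℕ × List ℕ → Set (ℕ → ℕ) := fun p =>
    {x | kx x = p.1 ∧ mx x = p.2.1 ∧ ∀ i < p.1, x i = ext p.2.2 i}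
  have hA : ∃ p, ¬ SB (A p) := by
    by_contra hcon
    push Not at hcon
    apply not_SB_univ
    refine (SB_iUnion A hcon).mono ?_
    intro x _
    obtain ⟨L, hL⟩ := exists_ext x (kx x)
    exact mem_iUnion.mpr ⟨(kx x, mx x, L), rfl, rfl, hL⟩
  obtain ⟨⟨K, M, L⟩, hD⟩ := hA
  set s : ℕ → ℕ := ext L with hs
  set D : Set (ℕ → ℕ) := A (K, M, L) with hDdef
  have hDs : ∀ x ∈ D, ∀ i < K, x i = s i := fun x hx => hx.2.2
  have hDF : ∀ x ∈ D, ∀ y ∈ F x, y ≠ cc x → 1 ≤ (M : ℝ) * dd K s y := by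
    rintro x ⟨h1, h2, h3⟩ y hy hne
    have h4 := hkm x y hy hne
    rw [h1, h2] at h4
    rwa [dd_congr h3] at h4
  let Dn : ℕ → (ℕ → ℕ) → Set (ℕ → ℕ) := fun n σ =>
    {x | x ∈ D ∧ ∀ s' : ℕ → ℕ, (∀ i < n, s' i ≤ σ i) → ∀ u ∈ NN pt f e n s' ∩ Z1 K M s,
      ∀ u' ∈ NN pt f e n s' ∩ Z1 K M s, u (cc x) = u' (cc x)}
  apply hD
  refine step4 (Dn := Dn) D ?_ ?_ ?_ ?_
  · -- covering
    intro α x hx
    by_contra hcon
    push Not at hcon
    let B : ℕ → Set (ℕ → ℕ) := fun n => {t | (∀ i, t i ≤ α i) ∧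
      ∃ u ∈ NN pt f e n t ∩ Z1 K M s, ∃ u' ∈ NN pt f e n t ∩ Z1 K M s, u (cc x) ≠ u' (cc x)}
    have hBne : ∀ n, (B n).Nonempty := by
      intro n
      have h1 := hcon n
      have h2 : ∃ s' : ℕ → ℕ, (∀ i < n, s' i ≤ α i) ∧ ∃ u ∈ NN pt f e n s' ∩ Z1 K M s,
          ∃ u' ∈ NN pt f e n s' ∩ Z1 K M s, u (cc x) ≠ u' (cc x) := by
        by_contra hcon2
        push Not at hcon2
        exact h1 ⟨hx, hcon2⟩
      obtain ⟨s', hs', u, hu, u', hu', hne⟩ := h2
      refine ⟨fun i => if i < n then s' i else 0, fun i => ?_, u, ⟨?_, hu.2⟩, u', ⟨?_, hu'.2⟩, hne⟩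
      · by_cases hi : i < n
        · simp [hi, hs' i hi]
        · simp [hi]
      · exact NN_congr pt f e (fun i hi => by simp [hi]) hu.1
      · exact NN_congr pt f e (fun i hi => by simp [hi]) hu'.1
    have hBanti : ∀ n, B (n + 1) ⊆ B n := by
      rintro n t ⟨h1, u, hu, u', hu', hne⟩
      exact ⟨h1, u, ⟨NN_anti pt f e (Nat.le_succ n) t hu.1, hu.2⟩, u',
        ⟨NN_anti pt f e (Nat.le_succ n) t hu'.1, hu'.2⟩, hne⟩
    have hBclosed : ∀ n, IsClosed (B n) := by
      intro n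
      have h1 : IsClosed {t : ℕ → ℕ | ∀ i, t i ≤ α i} := by
        have : {t : ℕ → ℕ | ∀ i, t i ≤ α i} = ⋂ i, {t : ℕ → ℕ | t i ≤ α i} := by
          ext t; simp
        rw [this]
        exact isClosed_iInter fun i => isClosed_le (continuous_apply i) continuous_const
      have h2 : IsClosed {t : ℕ → ℕ | ∃ u ∈ NN pt f e n t ∩ Z1 K M s,
          ∃ u' ∈ NN pt f e n t ∩ Z1 K M s, u (cc x) ≠ u' (cc x)} := by
        rw [← isOpen_compl_iff, isOpen_iff_mem_nhds]
        intro t ht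
        have h3 : {t' : ℕ → ℕ | ∀ i < n, t' i = t i} ∈ 𝓝 t := by
          have : {t' : ℕ → ℕ | ∀ i < n, t' i = t i} =
              ⋂ i ∈ Finset.range n, {t' : ℕ → ℕ | t' i = t i} := by
            ext t'; simp
          rw [this, Filter.biInter_finset_mem]
          intro i _
          have h0 : ∀ᶠ j in 𝓝 (t i), j = t i := by simp
          exact (continuous_apply (A := fun _ : ℕ => ℕ) i).continuousAt.eventually h0
        refine Filter.mem_of_superset h3 ?_
        rintro t' ht' ⟨u, hu, u', hu', hne⟩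
        exact ht ⟨u, ⟨NN_congr pt f e ht' hu.1, hu.2⟩, u', ⟨NN_congr pt f e ht' hu'.1, hu'.2⟩, hne⟩
      exact h1.inter h2
    have hBcompact : IsCompact (B 0) := by
      refine (isCompact_univ_pi (fun i : ℕ => (Set.finite_Iic (α i)).isCompact)).of_isClosed_subset
        (hBclosed 0) ?_
      rintro t ⟨h1, -⟩ i -
      exact h1 i
    obtain ⟨t, ht⟩ := IsCompact.nonempty_iInter_of_sequence_nonempty_isCompact_isClosed B hBanti
      hBne hBcompact hBclosed
    have ht' : ∀ n, t ∈ B n := fun n => mem_iInter.mp ht n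
    by_cases hcase : ∀ n, ∃ u ∈ NN pt f e n t ∩ Z1 K M s, u (cc x) = 0
    · obtain ⟨n, hn⟩ := hF x t (by
        intro n
        obtain ⟨u, hu, hu0⟩ := hcase n
        refine ⟨u, hu.1, fun y hy => ?_⟩
        by_cases hyx : y = cc x
        · rw [hyx]; exact hu0
        · exact hu.2.1 y (hDF x hx y hy hyx))
      obtain ⟨-, u, hu, u', hu', hne⟩ := ht' n
      have h1 := hn u hu.1
      have h2 := hn u' hu'.1
      have h3 := hu.2.2 x (hDs x hx)
      have h4 := hu'.2.2 x (hDs x hx)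
      rcases h3 with h3 | h3 <;> rcases h4 with h4 | h4
      · exact hne (h3.trans h4.symm)
      · rw [h4] at h2; norm_num at h2
      · rw [h3] at h1; norm_num at h1
      · exact hne (h3.trans h4.symm)
    · push Not at hcase
      obtain ⟨n, hn⟩ := hcase
      obtain ⟨-, u, hu, u', hu', hne⟩ := ht' n
      have h3 := (hu.2.2 x (hDs x hx)).resolve_left (hn u hu)
      have h4 := (hu'.2.2 x (hDs x hx)).resolve_left (hn u' hu')
      exact hne (h3.trans h4.symm)
  · -- monotonicity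
    rintro n α β hαβ x ⟨hx, h⟩
    exact ⟨hx, fun s' hs' => h s' (fun i hi => (hs' i hi).trans (hαβ i))⟩
  · -- increasing
    rintro n α x ⟨hx, h⟩
    refine ⟨hx, fun s' hs' u hu u' hu' => ?_⟩
    exact h s' (fun i hi => hs' i (by omega)) u ⟨NN_anti pt f e (Nat.le_succ n) s' hu.1, hu.2⟩
      u' ⟨NN_anti pt f e (Nat.le_succ n) s' hu'.1, hu'.2⟩
  · -- bounding continuous functions
    intro ι hι
    have htest : ∀ h : ℕ → Bool, ∃ u ∈ Z1 K M s, ∀ x : ℕ → ℕ, (∀ i < K, x i = s i) →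
        u (cc x) = if h (ι x) then 1 else 0 := fun h =>
      exists_test K M s (fun x => h (ι x)) ((continuous_of_discreteTopology (f := h)).comp hι)
    choose g hg1 hg2 using htest
    obtain ⟨α, hα⟩ := exists_alpha (fun n t h => g h ∈ NN pt f e n t)
      (fun h => by
        obtain ⟨β, hβ⟩ := hsurj (e (JJ pt (g h)))
        exact ⟨β, β, fun _ _ => rfl, hβ⟩)
      (fun n t h ht => by
        obtain ⟨β, hβ1, hβ2⟩ := ht
        exact ⟨β, hβ1, β, fun _ _ => rfl, hβ2⟩)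
    have hbound : ∀ n, ∃ c : ℕ, ∀ x ∈ Dn n α, ι x ≤ c := by
      intro n
      by_contra hcon
      push Not at hcon
      have hinf : (ι '' Dn n α).Infinite := by
        intro hfin
        obtain ⟨c, hc⟩ := hfin.bddAbove
        obtain ⟨x, hx, hxc⟩ := hcon c
        exact absurd (hc ⟨x, hx, rfl⟩) (by omega)
      apply hα n
      have hsub : {h | ∃ t : ℕ → ℕ, (∀ i < n, t i ≤ α i) ∧ g h ∈ NN pt f e n t} ⊆
          ⋃ L' : List ℕ, {h | (∀ i < n, ext L' i ≤ α i) ∧ g h ∈ NN pt f e n (ext L')} := by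
        rintro h ⟨t, ht1, ht2⟩
        obtain ⟨L', hL'⟩ := exists_ext t n
        exact mem_iUnion.mpr ⟨L', fun i hi => by rw [← hL' i hi]; exact ht1 i hi,
          NN_congr pt f e hL' ht2⟩
      refine IsMeagre.mono hsub (isMeagre_iUnion fun L' => ?_)
      rcases eq_empty_or_nonempty
        {h | (∀ i < n, ext L' i ≤ α i) ∧ g h ∈ NN pt f e n (ext L')} with hemp | ⟨h0, hh0⟩
      · rw [hemp]; exact IsMeagre.empty
      · refine (nowhereDense_agree _ hinf h0).isMeagre.mono ?_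
        rintro h ⟨hh1, hh2⟩ i ⟨x, hx, rfl⟩
        have h1 := hx.2 (ext L') hh1 (g h) ⟨hh2, hg1 h⟩ (g h0) ⟨hh0.2, hg1 h0⟩
        rw [hg2 h x (hDs x hx.1), hg2 h0 x (hDs x hx.1)] at h1
        by_cases ha : h (ι x) <;> by_cases hb : h0 (ι x) <;> simp_all
    choose c hc using hbound
    refine ⟨fun m => max (α m) (c (m + 1)), fun m x hx => ?_⟩
    have hx' : x ∈ Dn (m + 1) α :=
      ⟨hx.1, fun s' hs' => hx.2 s' (fun i hi => (hs' i hi).trans (le_max_left _ _))⟩
    exact (hc (m + 1) x hx').trans (le_max_right _ _)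

end Pool.Agent.Lib.MP_c6d701_gt.Gen
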