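import Mathlib
import Pool.Agent.Lib.MP_c6d701_gt.Combi

set_option autoImplicit false

open Set Topology Function

namespace Pool.Agent.Lib.MP_c6d701_gt

/-! ### Category part -/

theorem nowhereDense_agree (I : Set ℕ) (hI : I.Infinite) (h0 : ℕ → Bool) :
    IsNowhereDense {h : ℕ → Bool | ∀ i ∈ I, h i = h0 i} := by
  have hclosed : IsClosed {h : ℕ → Bool | ∀ i ∈ I, h i = h0 i} := by
    have : {h : ℕ → Bool | ∀ i ∈ I, h i = h0 i} = ⋂ i ∈ I, {h : ℕ → Bool | h i = h0 i} := by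
      ext h; simp
    rw [this]
    exact isClosed_biInter fun i _ => isClosed_eq (continuous_apply i) continuous_const
  rw [IsNowhereDense, hclosed.closure_eq, eq_empty_iff_forall_notMem]
  intro h hh
  rw [mem_interior] at hh
  obtain ⟨U, hU, hUo, hhU⟩ := hh
  rw [isOpen_pi_iff] at hUo
  obtain ⟨J, u, hJ, hJU⟩ := hUo h hhU
  obtain ⟨i, hiI, hiJ⟩ := hI.exists_notMem_finset J
  have h1 : update h i (!(h0 i)) ∈ U := by
    apply hJU
    intro j hj
    have hne : j ≠ i := fun h' => hiJ (h' ▸ hj)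
    rw [update_of_ne hne]
    exact (hJ j hj).2
  have h2 := hU h1 i hiI
  simp at h2

theorem exists_alpha (P : ℕ → (ℕ → ℕ) → (ℕ → Bool) → Prop)
    (h0 : ∀ h, ∃ s, P 0 s h)
    (hs : ∀ n s h, P n s h → ∃ s' : ℕ → ℕ, (∀ i < n, s' i = s i) ∧ P (n + 1) s' h) :
    ∃ α : ℕ → ℕ, ∀ n, ¬ IsMeagre {h | ∃ s : ℕ → ℕ, (∀ i < n, s i ≤ α i) ∧ P n s h} := by
  let C : ℕ → (ℕ → ℕ) → Set (ℕ → Bool) := fun n σ =>
    {h | ∃ s : ℕ → ℕ, (∀ i < n, s i ≤ σ i) ∧ P n s h}
  have hC0 : ∀ σ, ¬ IsMeagre (C 0 σ) := by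
    intro σ
    have : C 0 σ = univ := by
      apply eq_univ_of_forall
      intro h
      obtain ⟨s, hs⟩ := h0 h
      exact ⟨s, fun i hi => absurd hi (by omega), hs⟩
    rw [this]
    exact not_isMeagre_of_isOpen isOpen_univ ⟨fun _ => true, mem_univ _⟩
  have hstep : ∀ n σ, ¬ IsMeagre (C n σ) → ∃ i, ¬ IsMeagre (C (n + 1) (update σ n i)) := by
    intro n σ hn
    by_contra hcon
    push Not at hcon
    apply hn
    refine (isMeagre_iUnion hcon).mono ?_
    rintro h ⟨s, hs1, hs2⟩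
    obtain ⟨s', hs'1, hs'2⟩ := hs n s h hs2
    refine mem_iUnion.mpr ⟨s' n, s', fun j hj => ?_, hs'2⟩
    rcases Nat.lt_succ_iff_lt_or_eq.mp hj with h' | h'
    · rw [update_of_ne (by omega), hs'1 j h']
      exact hs1 j h'
    · subst h'; simp
  have hch : ∀ n σ, ∃ i, ¬ IsMeagre (C n σ) → ¬ IsMeagre (C (n + 1) (update σ n i)) := by
    intro n σ
    by_cases h : IsMeagre (C n σ)
    · exact ⟨0, fun h' => absurd h h'⟩
    · obtain ⟨i, hi⟩ := hstep n σ h
      exact ⟨i, fun _ => hi⟩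
  choose Φ hΦ using hch
  obtain ⟨α, X, -, hXs, hpre, -⟩ := exists_rec Φ
  refine ⟨α, fun n => ?_⟩
  have hX : ¬ IsMeagre (C n (X n)) := by
    induction n with
    | zero => exact hC0 _
    | succ n ih => rw [hXs n]; exact hΦ n _ ih
  have heq : C n (X n) ⊆ {h | ∃ s : ℕ → ℕ, (∀ i < n, s i ≤ α i) ∧ P n s h} := by
    rintro h ⟨s, hs1, hs2⟩
    exact ⟨s, fun i hi => (hs1 i hi).trans (hpre n i hi).le, hs2⟩
  exact fun hm => hX (hm.mono heq)

/-! ### The spaces -/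

/-- The space of continuous functions on the irrationals, pointwise topology. -/
abbrev XX : Type := {f : {x : ℝ // Irrational x} → ℝ // Continuous f}

/-- The space of continuous functions on `XX`, pointwise topology. -/
abbrev ZZ : Type := {g : XX → ℝ // Continuous g}

/-- Sample points. -/
noncomputable def pt (n : ℕ) : {x : ℝ // Irrational x} :=
  ⟨(n : ℝ) + (√2 - 1), by
    have h : Irrational (√2 - 1) := by
      simpa using irrational_sqrt_two.sub_natCast 1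
    exact h.natCast_add n⟩

theorem floor_pt (n : ℕ) : ⌊((pt n : {x : ℝ // Irrational x}) : ℝ)⌋ = (n : ℤ) := by
  have h1 : (1 : ℝ) < √2 := by
    rw [show (1 : ℝ) = √1 by simp]
    exact Real.sqrt_lt_sqrt (by norm_num) (by norm_num)
  have h2 : √2 < (2 : ℝ) := by
    rw [Real.sqrt_lt' (by norm_num)]
    norm_num
  rw [Int.floor_eq_iff]
  simp only [pt]
  push_cast
  constructor <;> linarith

/-- Evaluation at the sample points. -/
noncomputable def rho (p : XX) : ℕ → ℝ := fun n => p.1 (pt n)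

theorem continuous_rho : Continuous rho :=
  continuous_pi fun n => (continuous_apply (pt n)).comp continuous_subtype_val

theorem continuous_floor_irr (a : ℕ → ℝ) :
    Continuous (fun x : {x : ℝ // Irrational x} => a ⌊(x : ℝ)⌋.toNat) := by
  rw [continuous_iff_continuousAt]
  intro x0
  have h1 : ((⌊(x0 : ℝ)⌋ : ℤ) : ℝ) < (x0 : ℝ) :=
    lt_of_le_of_ne (Int.floor_le _) (fun h => x0.2 ⟨(⌊(x0 : ℝ)⌋ : ℚ), by simpa using h⟩)
  have h2 : (x0 : ℝ) < (⌊(x0 : ℝ)⌋ : ℝ) + 1 := Int.lt_floor_add_one _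
  have h3 : ∀ᶠ x : {x : ℝ // Irrational x} in 𝓝 x0,
      (x : ℝ) ∈ Ioo ((⌊(x0 : ℝ)⌋ : ℤ) : ℝ) ((⌊(x0 : ℝ)⌋ : ℝ) + 1) :=
    continuous_subtype_val.continuousAt.eventually (Ioo_mem_nhds h1 h2)
  have h4 : ContinuousAt (fun _ : {x : ℝ // Irrational x} => a ⌊(x0 : ℝ)⌋.toNat) x0 :=
    continuousAt_const
  refine h4.congr ?_
  filter_upwards [h3] with x hx
  have : ⌊(x : ℝ)⌋ = ⌊(x0 : ℝ)⌋ := by
    rw [Int.floor_eq_iff]
    exact ⟨hx.1.le, hx.2⟩
  rw [this]

/-- A section of `rho`. -/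
noncomputable def sec (a : ℕ → ℝ) : XX := ⟨fun x => a ⌊(x : ℝ)⌋.toNat, continuous_floor_irr a⟩

theorem rho_sec (a : ℕ → ℝ) : rho (sec a) = a := by
  funext n
  simp [rho, sec, floor_pt]

/-- Composition with `rho`. -/
noncomputable def JJ (u : C(ℕ → ℝ, ℝ)) : ZZ :=
  ⟨fun p => u (rho p), u.continuous.comp continuous_rho⟩

/-- Open sets in the Baire space contain cylinders. -/
theorem exists_cyl {U : Set (ℕ → ℕ)} (hU : IsOpen U) {α : ℕ → ℕ} (hα : α ∈ U) :
    ∃ n, ∀ β : ℕ → ℕ, (∀ i < n, β i = α i) → β ∈ U := by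
  rw [isOpen_pi_iff] at hU
  obtain ⟨J, u, hJ, hJU⟩ := hU α hα
  refine ⟨J.sup id + 1, fun β hβ => hJU ?_⟩
  intro j hj
  have : j ≤ J.sup id := Finset.le_sup (f := id) hj
  rw [hβ j (by omega)]
  exact (hJ j hj).2

section Star

variable {Y : Type} [TopologicalSpace Y] [RegularSpace Y] (f : (ℕ → ℕ) → Y)
  (e : ZZ → Y)

/-- The scheme of sets of functions. -/
def NN (n : ℕ) (s : ℕ → ℕ) : Set C(ℕ → ℝ, ℝ) :=
  {u | ∃ β : ℕ → ℕ, (∀ i < n, β i = s i) ∧ f β = e (JJ u)}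

omit [TopologicalSpace Y] [RegularSpace Y] in
theorem NN_congr {n : ℕ} {s s' : ℕ → ℕ} (h : ∀ i < n, s i = s' i) : NN f e n s ⊆ NN f e n s' := by
  rintro u ⟨β, hβ, h'⟩
  exact ⟨β, fun i hi => (hβ i hi).trans (h i hi), h'⟩

omit [TopologicalSpace Y] [RegularSpace Y] in
theorem NN_anti {n m : ℕ} (hnm : n ≤ m) (s : ℕ → ℕ) : NN f e m s ⊆ NN f e n s := by
  rintro u ⟨β, hβ, h'⟩
  exact ⟨β, fun i hi => hβ i (by omega), h'⟩

theorem star (hf : Continuous f) (he : IsEmbedding e) (x : ℕ → ℝ) :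
    ∃ F : Finset (ℕ → ℝ), ∀ α : ℕ → ℕ,
      (∀ n, ∃ u ∈ NN f e n α, ∀ y ∈ F, u y = 0) →
      ∃ n, ∀ u ∈ NN f e n α, |u x| < 1 / 4 := by
  classical
  let g0 : ZZ := JJ 0
  have hW0 : IsOpen {g : ZZ | |g.1 (sec x)| < 1 / 4} :=
    isOpen_lt (((continuous_apply (sec x)).comp continuous_subtype_val).abs) continuous_const
  obtain ⟨W, hWo, hW⟩ := he.isInducing.isOpen_iff.mp hW0
  have hg0W : e g0 ∈ W := by
    have : g0 ∈ e ⁻¹' W := by
      rw [hW]
      simp [g0, JJ]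
    exact this
  obtain ⟨V, ⟨hVo, hV0⟩, hVW⟩ : ∃ V : Set Y, (IsOpen V ∧ e g0 ∈ V) ∧ closure V ⊆ W := by
    obtain ⟨C, hC, hCc, hCW⟩ := exists_mem_nhds_isClosed_subset (hWo.mem_nhds hg0W)
    refine ⟨interior C, ⟨isOpen_interior, mem_interior_iff_mem_nhds.mpr hC⟩, ?_⟩
    exact (closure_mono interior_subset).trans (hCc.closure_eq.subset.trans hCW)
  have hVpre : IsOpen (e ⁻¹' V) := hVo.preimage he.continuous
  obtain ⟨O, hOo, hO⟩ := isOpen_induced_iff.mp hVpre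
  have hg0O : g0.1 ∈ O := by
    have : g0 ∈ Subtype.val ⁻¹' O := by rw [hO]; exact hV0
    exact this
  rw [isOpen_pi_iff] at hOo
  obtain ⟨J, w, hJ, hJO⟩ := hOo g0.1 hg0O
  refine ⟨J.image rho, fun α hα => ?_⟩
  have hcl : f α ∈ closure V := by
    rw [mem_closure_iff]
    intro O' hO' hαO'
    obtain ⟨n, hn⟩ := exists_cyl (hO'.preimage hf) hαO'
    obtain ⟨u, ⟨β, hβ1, hβ2⟩, hu⟩ := hα n
    refine ⟨f β, hn β hβ1, ?_⟩
    rw [hβ2]
    have h1 : (JJ u).1 ∈ O := by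
      apply hJO
      intro p hp
      have h2 : (JJ u).1 p = g0.1 p := by
        simp only [JJ, g0]
        rw [hu (rho p) (Finset.mem_image_of_mem _ hp)]
        simp
      rw [h2]
      exact (hJ p hp).2
    have h3 : JJ u ∈ e ⁻¹' V := by rw [← hO]; exact h1
    exact h3
  obtain ⟨n, hn⟩ := exists_cyl (hWo.preimage hf) (hVW hcl)
  refine ⟨n, ?_⟩
  rintro u ⟨β, hβ1, hβ2⟩
  have h1 : e (JJ u) ∈ W := by rw [← hβ2]; exact hn β hβ1
  have h2 : JJ u ∈ {g : ZZ | |g.1 (sec x)| < 1 / 4} := by rw [← hW]; exact h1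
  have h3 : |u (rho (sec x))| < 1 / 4 := h2
  rwa [rho_sec] at h3

end Star

/-! ### The main argument -/

/-- The inclusion of the Baire space in the product of lines. -/
def cc (x : ℕ → ℕ) : ℕ → ℝ := fun n => (x n : ℝ)

theorem isClosedEmbedding_cc : IsClosedEmbedding cc := by
  have h1 : IsEmbedding cc :=
    IsEmbedding.piMap (f := fun _ : ℕ => ((↑) : ℕ → ℝ))
      (fun _ => Nat.isClosedEmbedding_coe_real.isEmbedding)
  refine ⟨h1, ?_⟩
  have h2 : range cc = Set.pi univ (fun _ : ℕ => range ((↑) : ℕ → ℝ)) :=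
    Set.range_piMap (fun _ : ℕ => ((↑) : ℕ → ℝ))
  rw [h2]
  exact isClosed_set_pi fun _ _ => Nat.isClosedEmbedding_coe_real.isClosed_range

/-- A pseudo-distance using the first `k` coordinates. -/
noncomputable def dd (k : ℕ) (s : ℕ → ℕ) (y : ℕ → ℝ) : ℝ :=
  ∑ i ∈ Finset.range k, |y i - (s i : ℝ)|

theorem dd_congr {k : ℕ} {s s' : ℕ → ℕ} (h : ∀ i < k, s i = s' i) (y : ℕ → ℝ) :
    dd k s y = dd k s' y := by
  refine Finset.sum_congr rfl fun i hi => ?_
  rw [h i (Finset.mem_range.mp hi)]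

theorem dd_self {k : ℕ} {s x : ℕ → ℕ} (h : ∀ i < k, x i = s i) : dd k s (cc x) = 0 := by
  refine Finset.sum_eq_zero fun i hi => ?_
  simp [cc, h i (Finset.mem_range.mp hi)]

theorem dd_nonneg (k : ℕ) (s : ℕ → ℕ) (y : ℕ → ℝ) : 0 ≤ dd k s y :=
  Finset.sum_nonneg fun _ _ => abs_nonneg _

theorem dd_mono {k k' : ℕ} (h : k ≤ k') (s : ℕ → ℕ) (y : ℕ → ℝ) : dd k s y ≤ dd k' s y :=
  Finset.sum_le_sum_of_subset_of_nonneg (Finset.range_mono h) fun _ _ _ => abs_nonneg _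

theorem exists_sep (x : ℕ → ℕ) (y : ℕ → ℝ) (hy : y ≠ cc x) :
    ∃ k m : ℕ, 1 ≤ (m : ℝ) * dd k x y := by
  obtain ⟨i, hi⟩ := Function.ne_iff.mp hy
  have h1 : 0 < |y i - (x i : ℝ)| := abs_pos.mpr (sub_ne_zero.mpr hi)
  have h2 : |y i - (x i : ℝ)| ≤ dd (i + 1) x y :=
    Finset.single_le_sum (f := fun i => |y i - (x i : ℝ)|) (fun _ _ => abs_nonneg _)
      (Finset.mem_range.mpr (Nat.lt_succ_self i))
  obtain ⟨m, hm⟩ := exists_nat_ge (|y i - (x i : ℝ)|)⁻¹
  refine ⟨i + 1, m, ?_⟩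
  calc (1 : ℝ) = (|y i - (x i : ℝ)|)⁻¹ * |y i - (x i : ℝ)| := by
        rw [inv_mul_cancel₀ h1.ne']
    _ ≤ m * dd (i + 1) x y := mul_le_mul hm h2 h1.le (Nat.cast_nonneg _)

theorem exists_sep_finset (x : ℕ → ℕ) (F : Finset (ℕ → ℝ)) :
    ∃ k m : ℕ, ∀ y ∈ F, y ≠ cc x → 1 ≤ (m : ℝ) * dd k x y := by
  classical
  induction F using Finset.induction_on with
  | empty => exact ⟨0, 0, fun y hy => absurd hy (Finset.notMem_empty y)⟩
  | insert a F _ ih =>
    obtain ⟨k, m, h⟩ := ih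
    by_cases ha : a = cc x
    · refine ⟨k, m, fun y hy hne => ?_⟩
      rcases Finset.mem_insert.mp hy with h' | h'
      · exact absurd (h'.trans ha) hne
      · exact h y h' hne
    · obtain ⟨k', m', h'⟩ := exists_sep x a ha
      have key : ∀ (k₁ m₁ : ℕ) (y : ℕ → ℝ), k₁ ≤ max k k' → m₁ ≤ max m m' →
          1 ≤ (m₁ : ℝ) * dd k₁ x y → 1 ≤ ((max m m' : ℕ) : ℝ) * dd (max k k') x y := by
        intro k₁ m₁ y hk hm h1
        refine h1.trans (mul_le_mul (by exact_mod_cast hm) (dd_mono hk x y) (dd_nonneg _ _ _)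
          (Nat.cast_nonneg _))
      refine ⟨max k k', max m m', fun y hy hne => ?_⟩
      rcases Finset.mem_insert.mp hy with h'' | h''
      · subst h''
        exact key k' m' y (le_max_right _ _) (le_max_right _ _) h'
      · exact key k m y (le_max_left _ _) (le_max_left _ _) (h y h'' hne)

/-- The class of test functions. -/
def Z1 (k m : ℕ) (s : ℕ → ℕ) : Set C(ℕ → ℝ, ℝ) :=
  {u | (∀ y, 1 ≤ (m : ℝ) * dd k s y → u y = 0) ∧
    ∀ x : ℕ → ℕ, (∀ i < k, x i = s i) → u (cc x) = 0 ∨ u (cc x) = 1}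

theorem continuous_dd (k : ℕ) (s : ℕ → ℕ) : Continuous (dd k s) :=
  continuous_finsetSum _ fun i _ => ((continuous_apply i).sub continuous_const).abs

/-- Test functions with prescribed values. -/
theorem exists_test (k m : ℕ) (s : ℕ → ℕ) (v : (ℕ → ℕ) → Bool) (hv : Continuous v) :
    ∃ u ∈ Z1 k m s, ∀ x : ℕ → ℕ, (∀ i < k, x i = s i) → u (cc x) = if v x then 1 else 0 := by
  have hv' : Continuous (fun x => if v x then (1 : ℝ) else 0) :=
    (continuous_of_discreteTopology (f := fun b : Bool => if b then (1 : ℝ) else 0)).comp hv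
  obtain ⟨w, hw⟩ := ContinuousMap.exists_extension' isClosedEmbedding_cc
    (⟨fun x => if v x then (1 : ℝ) else 0, hv'⟩ : C(ℕ → ℕ, ℝ))
  have hw' : ∀ x, w (cc x) = if v x then 1 else 0 := fun x => congrFun hw x
  let θ : C(ℕ → ℝ, ℝ) := ⟨fun y => max 0 (1 - (m : ℝ) * dd k s y),
    continuous_const.max (continuous_const.sub (continuous_const.mul (continuous_dd k s)))⟩
  have hθ : ∀ x : ℕ → ℕ, (∀ i < k, x i = s i) → θ (cc x) = 1 := by
    intro x hx
    change max 0 (1 - (m : ℝ) * dd k s (cc x)) = 1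
    rw [dd_self hx]; simp
  have hval : ∀ x : ℕ → ℕ, (∀ i < k, x i = s i) → (θ * w) (cc x) = if v x then 1 else 0 := by
    intro x hx
    rw [ContinuousMap.mul_apply, hθ x hx, hw' x, one_mul]
  refine ⟨θ * w, ⟨fun y hy => ?_, fun x hx => ?_⟩, hval⟩
  · have : θ y = 0 := by
      change max 0 (1 - (m : ℝ) * dd k s y) = 0
      exact max_eq_left (by linarith)
    rw [ContinuousMap.mul_apply, this, zero_mul]
  · rw [hval x hx]
    by_cases h : v x
    · right; simp [h]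
    · left; simp [h]

theorem no_embedding {Y : Type} [TopologicalSpace Y] [RegularSpace Y] (f : (ℕ → ℕ) → Y)
    (hf : Continuous f) (hsurj : Surjective f) (e : ZZ → Y) (he : IsEmbedding e) : False := by
  classical
  have hstar := fun x : ℕ → ℕ => star f e hf he (cc x)
  choose F hF using hstar
  have hsep := fun x : ℕ → ℕ => exists_sep_finset x (F x)
  choose kx mx hkm using hsep
  -- a class which is not small
  let A : ℕ × ℕ × List ℕ → Set (ℕ → ℕ) := fun p =>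
    {x | kx x = p.1 ∧ mx x = p.2.1 ∧ ∀ i < p.1, x i = ext p.2.2 i}
  have hA : ∃ p, ¬ SB (A p) := by
    by_contra hcon
    push Not at hcon
    apply not_SB_univ
    refine (SB_iUnion A hcon).mono ?_
    intro x _
    obtain ⟨L, hL⟩ := exists_ext x (kx x)
    exact mem_iUnion.mpr ⟨(kx x, mx x, L), rfl, rfl, hL⟩
  obtain ⟨⟨K, M, L⟩, hD⟩ := hA
  set s : ℕ → ℕ := ext L with hs
  set D : Set (ℕ → ℕ) := A (K, M, L) with hDdef
  have hDs : ∀ x ∈ D, ∀ i < K, x i = s i := fun x hx => hx.2.2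
  have hDF : ∀ x ∈ D, ∀ y ∈ F x, y ≠ cc x → 1 ≤ (M : ℝ) * dd K s y := by
    rintro x ⟨h1, h2, h3⟩ y hy hne
    have h4 := hkm x y hy hne
    rw [h1, h2] at h4
    rwa [dd_congr h3] at h4
  let Dn : ℕ → (ℕ → ℕ) → Set (ℕ → ℕ) := fun n σ =>
    {x | x ∈ D ∧ ∀ s' : ℕ → ℕ, (∀ i < n, s' i ≤ σ i) → ∀ u ∈ NN f e n s' ∩ Z1 K M s,
      ∀ u' ∈ NN f e n s' ∩ Z1 K M s, u (cc x) = u' (cc x)}
  apply hD
  refine step4 (Dn := Dn) D ?_ ?_ ?_ ?_
  · -- covering
    intro α x hx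
    by_contra hcon
    push Not at hcon
    let B : ℕ → Set (ℕ → ℕ) := fun n => {t | (∀ i, t i ≤ α i) ∧
      ∃ u ∈ NN f e n t ∩ Z1 K M s, ∃ u' ∈ NN f e n t ∩ Z1 K M s, u (cc x) ≠ u' (cc x)}
    have hBne : ∀ n, (B n).Nonempty := by
      intro n
      have h1 := hcon n
      have h2 : ∃ s' : ℕ → ℕ, (∀ i < n, s' i ≤ α i) ∧ ∃ u ∈ NN f e n s' ∩ Z1 K M s,
          ∃ u' ∈ NN f e n s' ∩ Z1 K M s, u (cc x) ≠ u' (cc x) := by
        by_contra hcon2
        push Not at hcon2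
        exact h1 ⟨hx, hcon2⟩
      obtain ⟨s', hs', u, hu, u', hu', hne⟩ := h2
      refine ⟨fun i => if i < n then s' i else 0, fun i => ?_, u, ⟨?_, hu.2⟩, u', ⟨?_, hu'.2⟩, hne⟩
      · by_cases hi : i < n
        · simp [hi, hs' i hi]
        · simp [hi]
      · exact NN_congr f e (fun i hi => by simp [hi]) hu.1
      · exact NN_congr f e (fun i hi => by simp [hi]) hu'.1
    have hBanti : ∀ n, B (n + 1) ⊆ B n := by
      rintro n t ⟨h1, u, hu, u', hu', hne⟩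
      exact ⟨h1, u, ⟨NN_anti f e (Nat.le_succ n) t hu.1, hu.2⟩, u',
        ⟨NN_anti f e (Nat.le_succ n) t hu'.1, hu'.2⟩, hne⟩
    have hBclosed : ∀ n, IsClosed (B n) := by
      intro n
      have h1 : IsClosed {t : ℕ → ℕ | ∀ i, t i ≤ α i} := by
        have : {t : ℕ → ℕ | ∀ i, t i ≤ α i} = ⋂ i, {t : ℕ → ℕ | t i ≤ α i} := by
          ext t; simp
        rw [this]
        exact isClosed_iInter fun i => isClosed_le (continuous_apply i) continuous_const
      have h2 : IsClosed {t : ℕ → ℕ | ∃ u ∈ NN f e n t ∩ Z1 K M s,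
          ∃ u' ∈ NN f e n t ∩ Z1 K M s, u (cc x) ≠ u' (cc x)} := by
        rw [← isOpen_compl_iff, isOpen_iff_mem_nhds]
        intro t ht
        have h3 : {t' : ℕ → ℕ | ∀ i < n, t' i = t i} ∈ 𝓝 t := by
          have : {t' : ℕ → ℕ | ∀ i < n, t' i = t i} =
              ⋂ i ∈ Finset.range n, {t' : ℕ → ℕ | t' i = t i} := by
            ext t'; simp
          rw [this, Filter.biInter_finset_mem]
          intro i _
          have h0 : ∀ᶠ j in 𝓝 (t i), j = t i := by simp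
          exact (continuous_apply (A := fun _ : ℕ => ℕ) i).continuousAt.eventually h0
        refine Filter.mem_of_superset h3 ?_
        rintro t' ht' ⟨u, hu, u', hu', hne⟩
        exact ht ⟨u, ⟨NN_congr f e ht' hu.1, hu.2⟩, u', ⟨NN_congr f e ht' hu'.1, hu'.2⟩, hne⟩
      exact h1.inter h2
    have hBcompact : IsCompact (B 0) := by
      refine (isCompact_univ_pi (fun i : ℕ => (Set.finite_Iic (α i)).isCompact)).of_isClosed_subset
        (hBclosed 0) ?_
      rintro t ⟨h1, -⟩ i -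
      exact h1 i
    obtain ⟨t, ht⟩ := IsCompact.nonempty_iInter_of_sequence_nonempty_isCompact_isClosed B hBanti
      hBne hBcompact hBclosed
    have ht' : ∀ n, t ∈ B n := fun n => mem_iInter.mp ht n
    by_cases hcase : ∀ n, ∃ u ∈ NN f e n t ∩ Z1 K M s, u (cc x) = 0
    · obtain ⟨n, hn⟩ := hF x t (by
        intro n
        obtain ⟨u, hu, hu0⟩ := hcase n
        refine ⟨u, hu.1, fun y hy => ?_⟩
        by_cases hyx : y = cc x
        · rw [hyx]; exact hu0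
        · exact hu.2.1 y (hDF x hx y hy hyx))
      obtain ⟨-, u, hu, u', hu', hne⟩ := ht' n
      have h1 := hn u hu.1
      have h2 := hn u' hu'.1
      have h3 := hu.2.2 x (hDs x hx)
      have h4 := hu'.2.2 x (hDs x hx)
      rcases h3 with h3 | h3 <;> rcases h4 with h4 | h4
      · exact hne (h3.trans h4.symm)
      · rw [h4] at h2; norm_num at h2
      · rw [h3] at h1; norm_num at h1
      · exact hne (h3.trans h4.symm)
    · push Not at hcase
      obtain ⟨n, hn⟩ := hcase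
      obtain ⟨-, u, hu, u', hu', hne⟩ := ht' n
      have h3 := (hu.2.2 x (hDs x hx)).resolve_left (hn u hu)
      have h4 := (hu'.2.2 x (hDs x hx)).resolve_left (hn u' hu')
      exact hne (h3.trans h4.symm)
  · -- monotonicity
    rintro n α β hαβ x ⟨hx, h⟩
    exact ⟨hx, fun s' hs' => h s' (fun i hi => (hs' i hi).trans (hαβ i))⟩
  · -- increasing
    rintro n α x ⟨hx, h⟩
    refine ⟨hx, fun s' hs' u hu u' hu' => ?_⟩
    exact h s' (fun i hi => hs' i (by omega)) u ⟨NN_anti f e (Nat.le_succ n) s' hu.1, hu.2⟩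
      u' ⟨NN_anti f e (Nat.le_succ n) s' hu'.1, hu'.2⟩
  · -- bounding continuous functions
    intro ι hι
    have htest : ∀ h : ℕ → Bool, ∃ u ∈ Z1 K M s, ∀ x : ℕ → ℕ, (∀ i < K, x i = s i) →
        u (cc x) = if h (ι x) then 1 else 0 := fun h =>
      exists_test K M s (fun x => h (ι x)) ((continuous_of_discreteTopology (f := h)).comp hι)
    choose g hg1 hg2 using htest
    obtain ⟨α, hα⟩ := exists_alpha (fun n t h => g h ∈ NN f e n t)
      (fun h => by
        obtain ⟨β, hβ⟩ := hsurj (e (JJ (g h)))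
        exact ⟨β, β, fun _ _ => rfl, hβ⟩)
      (fun n t h ht => by
        obtain ⟨β, hβ1, hβ2⟩ := ht
        exact ⟨β, hβ1, β, fun _ _ => rfl, hβ2⟩)
    have hbound : ∀ n, ∃ c : ℕ, ∀ x ∈ Dn n α, ι x ≤ c := by
      intro n
      by_contra hcon
      push Not at hcon
      have hinf : (ι '' Dn n α).Infinite := by
        intro hfin
        obtain ⟨c, hc⟩ := hfin.bddAbove
        obtain ⟨x, hx, hxc⟩ := hcon c
        exact absurd (hc ⟨x, hx, rfl⟩) (by omega)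
      apply hα n
      have hsub : {h | ∃ t : ℕ → ℕ, (∀ i < n, t i ≤ α i) ∧ g h ∈ NN f e n t} ⊆
          ⋃ L' : List ℕ, {h | (∀ i < n, ext L' i ≤ α i) ∧ g h ∈ NN f e n (ext L')} := by
        rintro h ⟨t, ht1, ht2⟩
        obtain ⟨L', hL'⟩ := exists_ext t n
        exact mem_iUnion.mpr ⟨L', fun i hi => by rw [← hL' i hi]; exact ht1 i hi,
          NN_congr f e hL' ht2⟩
      refine IsMeagre.mono hsub (isMeagre_iUnion fun L' => ?_)
      rcases eq_empty_or_nonempty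
        {h | (∀ i < n, ext L' i ≤ α i) ∧ g h ∈ NN f e n (ext L')} with hemp | ⟨h0, hh0⟩
      · rw [hemp]; exact IsMeagre.empty
      · refine (nowhereDense_agree _ hinf h0).isMeagre.mono ?_
        rintro h ⟨hh1, hh2⟩ i ⟨x, hx, rfl⟩
        have h1 := hx.2 (ext L') hh1 (g h) ⟨hh2, hg1 h⟩ (g h0) ⟨hh0.2, hg1 h0⟩
        rw [hg2 h x (hDs x hx.1), hg2 h0 x (hDs x hx.1)] at h1
        by_cases ha : h (ι x) <;> by_cases hb : h0 (ι x) <;> simp_all
    choose c hc using hbound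
    refine ⟨fun m => max (α m) (c (m + 1)), fun m x hx => ?_⟩
    have hx' : x ∈ Dn (m + 1) α :=
      ⟨hx.1, fun s' hs' => hx.2 s' (fun i hi => (hs' i hi).trans (le_max_left _ _))⟩
    exact (hc (m + 1) x hx').trans (le_max_right _ _)

end Pool.Agent.Lib.MP_c6d701_gt
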